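import Pool.Agent.Y940.RS.Thm
/-!
# Random bases: derandomization
-/

set_option autoImplicit false

open Finset Filter MeasureTheory ProbabilityTheory

namespace Pool.Agent.Y940.RS

variable {Ω : Type*} [MeasurableSpace Ω]

theorem indep_blocks {κ ι : Type*} {μ : Measure Ω} {E : κ → Set Ω}
    (hm : ∀ n, MeasurableSet (E n)) (h : iIndepSet E μ) (W : ι → Finset κ)
    (hW : ∀ i j, i ≠ j → Disjoint (W i) (W j)) : iIndepSet (fun i => ⋂ v ∈ W i, E v) μ := by
  classical
  rw [iIndepSet_iff_meas_biInter fun i => Finset.measurableSet_biInter _ fun v _ => hm v]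
  intro s
  have h1 : ⋂ i ∈ s, ⋂ v ∈ W i, E v = ⋂ v ∈ s.biUnion W, E v := by
    ext ω
    simp only [Set.mem_iInter, mem_biUnion]
    constructor
    · rintro h2 v ⟨i, hi, hv⟩
      exact h2 i hi v hv
    · intro h2 i hi v hv
      exact h2 v ⟨i, hi, hv⟩
  rw [h1, h.meas_biInter, prod_biUnion]
  · refine prod_congr rfl fun i _ => ?_
    rw [h.meas_biInter]
  · intro i _ j _ hij
    exact hW i j hij

theorem indep_compl {κ : Type*} {μ : Measure Ω} {E : κ → Set Ω}
    (hm : ∀ n, MeasurableSet (E n)) (h : iIndepSet E μ) : iIndepSet (fun i => (E i)ᶜ) μ := by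
  rw [iIndepSet_iff_meas_biInter fun i => (hm i).compl]
  intro s
  refine iIndep.meas_biInter (m := fun i => MeasurableSpace.generateFrom {E i}) h ?_
  intro i _
  exact (MeasurableSpace.measurableSet_generateFrom (Set.mem_singleton _)).compl

theorem exp_le_one_sub {x : ℝ} (h0 : 0 ≤ x) (h1 : x ≤ 1 / 2) : Real.exp (-(2 * x)) ≤ 1 - x := by
  rw [Real.exp_neg]
  have h2 := Real.add_one_le_exp (2 * x)
  have h3 : 0 < 1 - x := by linarith
  rw [inv_le_comm₀ (Real.exp_pos _) h3]
  refine le_trans ?_ h2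
  rw [inv_le_iff_one_le_mul₀ h3]
  nlinarith

theorem prod_one_sub_ge {ι : Type*} (T : Finset ι) (x : ι → ℝ) (h0 : ∀ i ∈ T, 0 ≤ x i)
    (h1 : ∀ i ∈ T, x i ≤ 1 / 2) : Real.exp (-(2 * ∑ i ∈ T, x i)) ≤ ∏ i ∈ T, (1 - x i) := by
  rw [mul_sum, ← sum_neg_distrib, Real.exp_sum]
  exact prod_le_prod (fun i _ => (Real.exp_pos _).le) fun i hi => exp_le_one_sub (h0 i hi) (h1 i hi)

theorem rep_zero {p : ℕ → ℝ} {ε : ℝ} {n : ℕ} (h : rep {k | ε ≤ p k} n = 0) {a : ℕ} (ha : a ≤ n)
    (h1 : ε ≤ p a) : p (n - a) < ε := by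
  by_contra h2
  push Not at h2
  unfold rep at h
  rw [Set.ncard_eq_zero (rep_finite _ _)] at h
  have h3 : (a, n - a) ∈ {x : ℕ × ℕ | x.1 ∈ {k | ε ≤ p k} ∧ x.2 ∈ {k | ε ≤ p k} ∧
      x.1 + x.2 = n} := ⟨h1, h2, by simp only; omega⟩
  rw [h] at h3
  exact h3

/-- If no level set is a basis, and the mean numbers of pairs are bounded, then the random set is
almost surely not a basis. -/
theorem basis_null {μ : Measure Ω} [IsProbabilityMeasure μ] {E : ℕ → Set Ω}
    (hm : ∀ n, MeasurableSet (E n)) (h : iIndepSet E μ) {H : ℝ}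
    (hH : ∀ (V : Finset ℕ) (s : ℕ),
      ∑ a ∈ pairs V s, μ.real (E a) * μ.real (E (s - a)) ≤ H)
    (hB : ∀ ε : ℝ, 0 < ε → ∃ᶠ n : ℕ in atTop, rep {k | ε ≤ μ.real (E k)} n = 0) :
    ∀ᵐ ω ∂μ, ∃ᶠ n : ℕ in atTop, rep (rset E ω) n = 0 := by
  classical
  set p : ℕ → ℝ := fun n => μ.real (E n) with hp
  have hp0 : ∀ n, 0 ≤ p n := fun n => measureReal_nonneg
  have hstep : ∀ i m : ℕ, ∃ n : ℕ, m < n ∧ ∃ ε : ℝ, 0 < ε ∧ ε ≤ 1 / 2 ∧
      ((m : ℝ) + 1) * ε ≤ (1 / 2) ^ i ∧ (∀ a ≤ m, 0 < p a → ε ≤ p a) ∧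
      rep {k | ε ≤ p k} n = 0 := by
    intro i m
    have h1 : ∀ᶠ ε in nhdsWithin (0 : ℝ) (Set.Ioi 0), ∀ a ∈ range (m + 1), 0 < p a → ε ≤ p a := by
      rw [eventually_all_finset]
      intro a _
      by_cases ha : 0 < p a
      · filter_upwards [Ioc_mem_nhdsGT ha] with ε hε _
        exact hε.2
      · exact Eventually.of_forall fun _ h => absurd h ha
    have h2 : ∀ᶠ ε in nhdsWithin (0 : ℝ) (Set.Ioi 0), 0 < ε ∧ ε ≤ 1 / 2 :=
      Ioc_mem_nhdsGT (by norm_num)
    have h3 : ∀ᶠ ε in nhdsWithin (0 : ℝ) (Set.Ioi 0), 0 < ε ∧ ε ≤ (1 / 2) ^ i / ((m : ℝ) + 1) :=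
      Ioc_mem_nhdsGT (by positivity)
    obtain ⟨ε, h4, ⟨h5, h6⟩, _, h8⟩ := (h1.and (h2.and h3)).exists
    obtain ⟨n, hn1, hn2⟩ := ((hB ε h5).and_eventually (eventually_gt_atTop m)).exists
    refine ⟨n, hn2, ε, h5, h6, ?_, ?_, hn1⟩
    · rw [le_div_iff₀ (by positivity)] at h8
      linarith
    · intro a ha hpa
      exact h4 a (mem_range.2 (by omega)) hpa
  choose nx hnx ex hex0 hex1 hex2 hex3 hex4 using hstep
  set sq : ℕ → ℕ := fun i => Nat.rec 0 (fun i m => nx i m) i with hsq
  have hsucc : ∀ i, sq (i + 1) = nx i (sq i) := fun i => rfl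
  have hmono : StrictMono sq := strictMono_nat_of_lt_succ fun i => by
    rw [hsucc]
    exact hnx i (sq i)
  set n : ℕ → ℕ := fun i => sq (i + 1) with hn
  set ε : ℕ → ℝ := fun i => ex i (sq i) with hε
  have hε0 : ∀ i, 0 < ε i := fun i => hex0 i (sq i)
  have hε1 : ∀ i, ε i ≤ 1 / 2 := fun i => hex1 i (sq i)
  have hε2 : ∀ i, ((sq i : ℕ) + 1 : ℝ) * ε i ≤ (1 / 2) ^ i := fun i => hex2 i (sq i)
  have hε3 : ∀ i, ∀ a ≤ sq i, 0 < p a → ε i ≤ p a := fun i => hex3 i (sq i)
  have hε4 : ∀ i, rep {k | ε i ≤ p k} (n i) = 0 := fun i => hex4 i (sq i)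
  have hmn : ∀ i, sq i < n i := fun i => hnx i (sq i)
  set T : ℕ → Finset ℕ := fun i => (range (n i + 1)).filter fun a => sq i < a ∧ 2 * a ≤ n i
    with hT
  have hmemT : ∀ i a, a ∈ T i ↔ sq i < a ∧ 2 * a ≤ n i := by
    intro i a
    rw [hT, mem_filter, mem_range]
    constructor
    · rintro ⟨_, h1⟩
      exact h1
    · rintro ⟨h1, h2⟩
      exact ⟨by omega, h1, h2⟩
  set W : ℕ × ℕ → Finset ℕ := fun x => if x.2 ∈ T x.1 then {x.2, n x.1 - x.2} else ∅ with hW
  have hWdisj : ∀ x y : ℕ × ℕ, x ≠ y → Disjoint (W x) (W y) := by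
    have hlt : ∀ x y : ℕ × ℕ, x.1 < y.1 → Disjoint (W x) (W y) := by
      rintro ⟨i, a⟩ ⟨j, b⟩ hij
      simp only at hij
      simp only [hW]
      split_ifs with h1 h2
      · rw [hmemT] at h1 h2
        have h3 : n i ≤ sq j := by
          have h4 : i + 1 ≤ j := hij
          exact hmono.monotone h4
        rw [disjoint_left]
        intro v hv1 hv2
        rw [mem_insert, mem_singleton] at hv1 hv2
        omega
      · exact disjoint_empty_right _
      · exact disjoint_empty_left _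
      · exact disjoint_empty_left _
    rintro ⟨i, a⟩ ⟨j, b⟩ hxy
    rcases lt_trichotomy i j with h1 | h1 | h1
    · exact hlt _ _ h1
    · subst h1
      have hab : a ≠ b := fun h => hxy (by rw [h])
      simp only [hW]
      split_ifs with h1 h2
      · rw [hmemT] at h1 h2
        rw [disjoint_left]
        intro v hv1 hv2
        rw [mem_insert, mem_singleton] at hv1 hv2
        omega
      · exact disjoint_empty_right _
      · exact disjoint_empty_left _
      · exact disjoint_empty_left _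
    · exact (hlt _ _ h1).symm
  set X : ℕ × ℕ → Set Ω := fun x => ⋂ v ∈ W x, E v with hX
  have hXm : ∀ x, MeasurableSet (X x) := fun x => Finset.measurableSet_biInter _ fun v _ => hm v
  have hXi : iIndepSet X μ := indep_blocks hm h W hWdisj
  have hYi : iIndepSet (fun x => (X x)ᶜ) μ := indep_compl hXm hXi
  set D : ℕ → Set Ω := fun i => ⋂ x ∈ (T i).image (fun a => (i, a)), (X x)ᶜ with hD
  have hDm : ∀ i, MeasurableSet (D i) :=
    fun i => Finset.measurableSet_biInter _ fun x _ => (hXm x).compl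
  have hDi : iIndepSet D μ := by
    refine indep_blocks (fun x => (hXm x).compl) hYi (fun i => (T i).image (fun a => (i, a))) ?_
    intro i j hij
    rw [disjoint_left]
    intro x hx1 hx2
    obtain ⟨a, _, rfl⟩ := mem_image.1 hx1
    obtain ⟨b, _, h1⟩ := mem_image.1 hx2
    exact hij (Prod.ext_iff.1 h1).1.symm
  have hXle : ∀ i, ∀ a ∈ T i, μ.real (X (i, a)) ≤ ε i := by
    intro i a ha
    have h1 : W (i, a) = {a, n i - a} := by
      simp only [hW]
      rw [if_pos ha]
    have ha' := (hmemT i a).1 ha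
    by_cases h2 : ε i ≤ p a
    · have h3 := rep_zero (hε4 i) (a := a) (by omega) h2
      refine le_trans ?_ h3.le
      refine measureReal_mono ?_
      intro ω hω
      rw [hX, Set.mem_iInter₂] at hω
      exact hω (n i - a) (by rw [h1]; simp)
    · push Not at h2
      refine le_trans ?_ h2.le
      refine measureReal_mono ?_
      intro ω hω
      rw [hX, Set.mem_iInter₂] at hω
      exact hω a (by rw [h1]; simp)
  have hXsum : ∀ i, ∑ a ∈ T i, μ.real (X (i, a)) ≤ H + 1 / 2 := by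
    intro i
    rw [← sum_filter_add_sum_filter_not (T i) (fun a => 2 * a < n i)]
    refine add_le_add ?_ ?_
    · refine le_trans ?_ (hH (range (n i + 1)) (n i))
      calc ∑ a ∈ (T i).filter (fun a => 2 * a < n i), μ.real (X (i, a))
          = ∑ a ∈ (T i).filter (fun a => 2 * a < n i), p a * p (n i - a) := by
            refine sum_congr rfl fun a ha => ?_
            obtain ⟨h1, h2⟩ := mem_filter.1 ha
            have h3 : W (i, a) = {a, n i - a} := by
              simp only [hW]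
              rw [if_pos h1]
            have h4 : μ.real (X (i, a)) = ∏ v ∈ W (i, a), p v :=
              (KW.of_indep hm h (W (i, a)).card).2 _ le_rfl
            rw [h4, h3, prod_pair (by omega)]
        _ ≤ ∑ a ∈ pairs (range (n i + 1)) (n i), p a * p (n i - a) := by
            refine sum_le_sum_of_subset_of_nonneg ?_ fun a _ _ => mul_nonneg (hp0 _) (hp0 _)
            intro a ha
            obtain ⟨h1, h2⟩ := mem_filter.1 ha
            have h3 := (hmemT i a).1 h1
            rw [mem_pairs, mem_range, mem_range]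
            exact ⟨by omega, h2, by omega⟩
    · calc ∑ a ∈ (T i).filter (fun a => ¬ 2 * a < n i), μ.real (X (i, a))
          ≤ ∑ a ∈ (T i).filter (fun a => ¬ 2 * a < n i), (1 / 2 : ℝ) :=
            sum_le_sum fun a ha => (hXle i a (mem_filter.1 ha).1).trans (hε1 i)
        _ ≤ ∑ a ∈ ({n i / 2} : Finset ℕ), (1 / 2 : ℝ) := by
            refine sum_le_sum_of_subset_of_nonneg ?_ fun _ _ _ => by norm_num
            intro a ha
            obtain ⟨h1, h2⟩ := mem_filter.1 ha
            have h3 := (hmemT i a).1 h1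
            rw [mem_singleton]
            omega
        _ = 1 / 2 := by rw [sum_singleton]
  set η : ℝ := Real.exp (-(2 * (H + 1 / 2))) with hη
  have hη0 : 0 < η := Real.exp_pos _
  have hDη : ∀ i, ENNReal.ofReal η ≤ μ (D i) := by
    intro i
    rw [ENNReal.ofReal_le_iff_le_toReal (measure_ne_top _ _)]
    have h1 : (μ (D i)).toReal = ∏ a ∈ T i, (1 - μ.real (X (i, a))) := by
      rw [hD, hYi.meas_biInter, ENNReal.toReal_prod, prod_image]
      · refine prod_congr rfl fun a _ => ?_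
        have := probReal_compl_eq_one_sub (μ := μ) (hXm (i, a))
        rw [← this]
        rfl
      · intro a _ b _ hab
        exact (Prod.ext_iff.1 hab).2
    rw [h1]
    refine le_trans ?_ (prod_one_sub_ge (T i) (fun a => μ.real (X (i, a)))
      (fun _ _ => measureReal_nonneg) fun a ha => (hXle i a ha).trans (hε1 i))
    rw [hη]
    refine Real.exp_le_exp.2 ?_
    have := hXsum i
    linarith
  have hDtop : ∑' i, μ (D i) = ⊤ := by
    rw [← top_le_iff]
    calc (⊤ : ENNReal) = ∑' _ : ℕ, ENNReal.ofReal η :=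
          (ENNReal.tsum_const_eq_top_of_ne_zero (by
            rw [Ne, ENNReal.ofReal_eq_zero, not_le]
            exact hη0)).symm
      _ ≤ ∑' i, μ (D i) := ENNReal.tsum_le_tsum hDη
  have hD1 := measure_limsup_eq_one hDm hDi hDtop
  have hDae : ∀ᵐ ω ∂μ, ω ∈ limsup D atTop :=
    (mem_ae_iff_prob_eq_one (MeasurableSet.measurableSet_limsup hDm)).2 hD1
  set S : ℕ → Set Ω := fun i => ⋃ a ∈ range (sq i + 1), E a ∩ E (n i - a) with hS
  have hSle : ∀ i, μ (S i) ≤ ENNReal.ofReal ((1 / 2) ^ i) := by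
    intro i
    calc μ (S i) ≤ ∑ a ∈ range (sq i + 1), μ (E a ∩ E (n i - a)) :=
          measure_biUnion_finset_le _ _
      _ ≤ ∑ a ∈ range (sq i + 1), ENNReal.ofReal (ε i) := by
          refine sum_le_sum fun a ha => ?_
          rw [ENNReal.le_ofReal_iff_toReal_le (measure_ne_top _ _) (hε0 i).le]
          have ha' : a ≤ sq i := by
            have := mem_range.1 ha
            omega
          rcases (hp0 a).lt_or_eq with h1 | h1
          · have h2 := hε3 i a ha' h1
            have h3 := rep_zero (hε4 i) (a := a) (ha'.trans (hmn i).le) h2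
            refine le_trans ?_ h3.le
            exact measureReal_mono Set.inter_subset_right
          · refine le_trans ?_ (hε0 i).le
            have h2 : μ.real (E a) ≤ 0 := h1.symm.le
            exact le_trans (measureReal_mono (Set.inter_subset_left)) h2
      _ = ENNReal.ofReal (((sq i : ℕ) + 1 : ℝ) * ε i) := by
          rw [sum_const, card_range, nsmul_eq_mul, ENNReal.ofReal_mul (by positivity)]
          congr 1
          rw [← Nat.cast_add_one, ENNReal.ofReal_natCast]
      _ ≤ ENNReal.ofReal ((1 / 2) ^ i) := ENNReal.ofReal_le_ofReal (hε2 i)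
  have hSfin : ∑' i, μ (S i) ≠ ⊤ := by
    have h1 : Summable fun i : ℕ => (1 / 2 : ℝ) ^ i :=
      summable_geometric_of_lt_one (by norm_num) (by norm_num)
    exact ne_top_of_le_ne_top h1.tsum_ofReal_ne_top (ENNReal.tsum_le_tsum hSle)
  have hSae := ae_eventually_notMem hSfin
  filter_upwards [hDae, hSae] with ω h1 h2
  rw [mem_limsup_iff_frequently_mem] at h1
  have h3 := h1.and_eventually h2
  have h4 : ∃ᶠ i in atTop, rep (rset E ω) (n i) = 0 := by
    refine h3.mono ?_
    rintro i ⟨h5, h6⟩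
    have key : ∀ a, 2 * a ≤ n i → ω ∈ E a → ω ∈ E (n i - a) → False := by
      intro a ha hEa hEb
      by_cases h7 : a ≤ sq i
      · refine h6 ?_
        rw [hS, Set.mem_iUnion₂]
        exact ⟨a, mem_range.2 (by omega), hEa, hEb⟩
      · have h8 : a ∈ T i := (hmemT i a).2 ⟨by omega, ha⟩
        rw [hD, Set.mem_iInter₂] at h5
        refine h5 (i, a) (mem_image.2 ⟨a, h8, rfl⟩) ?_
        rw [hX, Set.mem_iInter₂]
        intro v hv
        simp only [hW] at hv
        rw [if_pos h8, mem_insert, mem_singleton] at hv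
        rcases hv with rfl | rfl
        · exact hEa
        · exact hEb
    unfold rep
    rw [Set.ncard_eq_zero (rep_finite _ _), Set.eq_empty_iff_forall_notMem]
    rintro ⟨a, b⟩ ⟨ha, hb, hab⟩
    simp only at ha hb hab
    rcases le_total a b with h7 | h7
    · refine key a (by omega) ha ?_
      have : n i - a = b := by omega
      rw [this]
      exact hb
    · refine key b (by omega) hb ?_
      have : n i - b = a := by omega
      rw [this]
      exact ha
  have h5 : Tendsto n atTop atTop :=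
    (hmono.tendsto_atTop).comp (tendsto_add_atTop_nat 1)
  exact h5.frequently h4

/-- **Derandomization for bases.** -/
theorem level_basis {μ : Measure Ω} [IsProbabilityMeasure μ] {E : ℕ → Set Ω}
    (hm : ∀ n, MeasurableSet (E n)) (h : iIndepSet E μ) {K : ℕ} (hK : 1 ≤ K)
    (hpos : 0 < μ {ω | (∀ᶠ n in atTop, 1 ≤ rep (rset E ω) n) ∧
      ∀ s, rep (rset E ω) s < 2 * K}) :
    ∃ ε₀ : ℝ, 0 < ε₀ ∧ ∀ ε : ℝ, 0 < ε → ε ≤ ε₀ →
      ∀ᶠ n : ℕ in atTop, 1 ≤ rep {k | ε ≤ μ.real (E k)} n := by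
  by_contra hcon
  push Not at hcon
  have hpos2 : 0 < μ.real {ω | ∀ s, rep (rset E ω) s < 2 * K} := by
    rw [measureReal_def, ENNReal.toReal_pos_iff]
    refine ⟨hpos.trans_le (measure_mono ?_), measure_lt_top _ _⟩
    rintro ω ⟨_, hω⟩
    exact hω
  obtain ⟨H, _, hH⟩ := mean_bound hK (KW.of_indep hm h _) hpos2
  have hB : ∀ ε : ℝ, 0 < ε → ∃ᶠ n : ℕ in atTop, rep {k | ε ≤ μ.real (E k)} n = 0 := by
    intro ε hε
    obtain ⟨ε', h1, h2, h3⟩ := hcon ε hε
    refine Frequently.mono h3 ?_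
    · intro n hn
      have h4 : rep {k | ε ≤ μ.real (E k)} n ≤ rep {k | ε' ≤ μ.real (E k)} n := by
        refine rep_mono ?_ n
        intro k hk
        exact h2.trans hk
      omega
  have h1 := basis_null hm h hH hB
  have h2 : μ {ω | (∀ᶠ n in atTop, 1 ≤ rep (rset E ω) n) ∧
      ∀ s, rep (rset E ω) s < 2 * K} = 0 := by
    refine measure_mono_null ?_ h1
    rintro ω ⟨hω, _⟩ hω2
    obtain ⟨n, h3, h4⟩ := (hω2.and_eventually hω).exists
    omega
  exact hpos.ne' h2

end Pool.Agent.Y940.RS
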