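import Mathlib
import Pool.Agent.Y940.RS.Moment
/-!
# Random sets: many targets with several layers of possible representations
-/

set_option autoImplicit false

open Finset Filter MeasureTheory ProbabilityTheory

namespace Pool.Agent.Y940.RS

theorem prod_add_le {ι : Type*} (T : Finset ι) (x t : ι → ℝ) (B : ℝ) (hB : 1 ≤ B)
    (hx0 : ∀ i ∈ T, 0 ≤ x i) (hx1 : ∀ i ∈ T, x i ≤ 1) (ht0 : ∀ i ∈ T, 0 ≤ t i)
    (hb : ∀ i ∈ T, x i + t i ≤ B) :
    ∏ i ∈ T, (x i + t i) ≤ (∏ i ∈ T, x i) + B ^ T.card * ∑ i ∈ T, t i := by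
  classical
  induction T using Finset.induction_on with
  | empty => simp
  | insert a T ha ih =>
    have ih := ih (fun i hi => hx0 i (mem_insert_of_mem hi))
      (fun i hi => hx1 i (mem_insert_of_mem hi)) (fun i hi => ht0 i (mem_insert_of_mem hi))
      (fun i hi => hb i (mem_insert_of_mem hi))
    rw [prod_insert ha, prod_insert ha, sum_insert ha, card_insert_of_notMem ha]
    have h1 := hx0 a (mem_insert_self a T)
    have h2 := hx1 a (mem_insert_self a T)
    have h3 := ht0 a (mem_insert_self a T)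
    have hP : ∏ i ∈ T, (x i + t i) ≤ B ^ T.card := by
      calc ∏ i ∈ T, (x i + t i) ≤ ∏ _i ∈ T, B := prod_le_prod
            (fun i hi => add_nonneg (hx0 i (mem_insert_of_mem hi)) (ht0 i (mem_insert_of_mem hi)))
            (fun i hi => hb i (mem_insert_of_mem hi))
        _ = B ^ T.card := prod_const _
    have hS : 0 ≤ ∑ i ∈ T, t i := sum_nonneg fun i hi => ht0 i (mem_insert_of_mem hi)
    have hBp : 0 ≤ B ^ T.card := by positivity
    have hBm : B ^ T.card ≤ B ^ (T.card + 1) := pow_le_pow_right₀ hB (Nat.le_succ _)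
    calc (x a + t a) * ∏ i ∈ T, (x i + t i)
        = x a * ∏ i ∈ T, (x i + t i) + t a * ∏ i ∈ T, (x i + t i) := by ring
      _ ≤ x a * ((∏ i ∈ T, x i) + B ^ T.card * ∑ i ∈ T, t i) + t a * B ^ T.card :=
          add_le_add (mul_le_mul_of_nonneg_left ih h1) (mul_le_mul_of_nonneg_left hP h3)
      _ = x a * (∏ i ∈ T, x i) + x a * (B ^ T.card * ∑ i ∈ T, t i) + t a * B ^ T.card := by ring
      _ ≤ x a * (∏ i ∈ T, x i) + 1 * (B ^ T.card * ∑ i ∈ T, t i) + t a * B ^ T.card := by
          have := mul_le_mul_of_nonneg_right h2 (mul_nonneg hBp hS)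
          linarith
      _ = x a * (∏ i ∈ T, x i) + B ^ T.card * (t a + ∑ i ∈ T, t i) := by ring
      _ ≤ x a * (∏ i ∈ T, x i) + B ^ (T.card + 1) * (t a + ∑ i ∈ T, t i) := by
          have := mul_le_mul_of_nonneg_right hBm (add_nonneg h3 hS)
          linarith

/-- the vertices of the pairs `(f l, s - f l)` -/
def vert {K : ℕ} (s : ℕ) (f : Fin K → ℕ) : Finset ℕ :=
  univ.image f ∪ univ.image fun l => s - f l

theorem vert_card {K : ℕ} (s : ℕ) (f : Fin K → ℕ) : (vert s f).card ≤ 2 * K := by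
  unfold vert
  refine (card_union_le _ _).trans ?_
  have h1 : (univ.image f).card ≤ K := by
    refine card_image_le.trans ?_
    simp
  have h2 : (univ.image fun l => s - f l).card ≤ K := by
    refine card_image_le.trans ?_
    simp
  omega

/-- admissible layers for the target `s` -/
structure Lay (V : Finset ℕ) {K : ℕ} (s : ℕ) (L : Fin K → Finset ℕ) : Prop where
  mem : ∀ l, ∀ a ∈ L l, a ∈ V ∧ 2 * a < s ∧ s - a ∈ V
  disj : ∀ l l', l ≠ l' → Disjoint (L l) (L l')

theorem prod_vert {V : Finset ℕ} {K s : ℕ} {L : Fin K → Finset ℕ} (hL : Lay V s L) (q : ℕ → ℝ)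
    {f : Fin K → ℕ} (hf : f ∈ Fintype.piFinset L) :
    ∏ v ∈ vert s f, q v = ∏ l, (q (f l) * q (s - f l)) := by
  classical
  have hf' : ∀ l, f l ∈ L l := Fintype.mem_piFinset.1 hf
  have hinj : Function.Injective f := by
    intro l l' h
    by_contra hne
    have h1 := hf' l
    rw [h] at h1
    exact disjoint_left.1 (hL.disj l l' hne) h1 (hf' l')
  unfold vert
  rw [prod_union, prod_image, prod_image, prod_mul_distrib]
  · intro l _ l' _ h
    apply hinj
    have h1 := (hL.mem l _ (hf' l)).2.1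
    have h2 := (hL.mem l' _ (hf' l')).2.1
    simp only at h
    omega
  · intro l _ l' _ h
    exact hinj h
  · rw [disjoint_left]
    intro v h1 h2
    obtain ⟨l, _, rfl⟩ := mem_image.1 h1
    obtain ⟨l', _, h⟩ := mem_image.1 h2
    have h3 := (hL.mem l _ (hf' l)).2.1
    have h4 := (hL.mem l' _ (hf' l')).2.1
    omega

theorem sum_prod_vert {V : Finset ℕ} {K s : ℕ} {L : Fin K → Finset ℕ} (hL : Lay V s L)
    (q : ℕ → ℝ) :
    ∑ f ∈ Fintype.piFinset L, ∏ v ∈ vert s f, q v = ∏ l, ∑ a ∈ L l, q a * q (s - a) := by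
  classical
  rw [prod_univ_sum]
  exact sum_congr rfl fun f hf => prod_vert hL q hf

theorem prod_sdiff_eq (W U : Finset ℕ) (p : ℕ → ℝ) :
    ∏ v ∈ W \ U, p v = ∏ v ∈ W, (if v ∈ U then 1 else p v) := by
  classical
  rw [← prod_sdiff (inter_subset_left : W ∩ U ⊆ W), sdiff_inter_self_left]
  rw [prod_congr rfl (fun v hv => if_neg (mem_sdiff.1 hv).2 : ∀ v ∈ W \ U,
    (if v ∈ U then (1 : ℝ) else p v) = p v)]
  rw [prod_congr rfl (fun v hv => if_pos (mem_inter.1 hv).2 : ∀ v ∈ W ∩ U,
    (if v ∈ U then (1 : ℝ) else p v) = 1), prod_const_one, mul_one]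

/-- one target: the effect of the knowledge that the elements of `U` are present -/
theorem one_target {V : Finset ℕ} {K s : ℕ} {L : Fin K → Finset ℕ} (hL : Lay V s L)
    (p : ℕ → ℝ) (hp0 : ∀ n, 0 ≤ p n) (hp1 : ∀ n, p n ≤ 1)
    (hx : ∀ l, ∑ a ∈ L l, p a * p (s - a) ≤ 1) (U : Finset ℕ) (hU : U.card ≤ 2 * K) :
    ∑ f ∈ Fintype.piFinset L, ∏ v ∈ vert s f \ U, p v ≤
      (∑ f ∈ Fintype.piFinset L, ∏ v ∈ vert s f, p v) + (4 * K + 1 : ℝ) ^ K * (K * (2 *
        ∑ u ∈ U, if u ≤ s ∧ s - u ∈ V then (if s - u ∈ U then 1 else p (s - u)) else 0)) := by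
  classical
  set q : ℕ → ℝ := fun v => if v ∈ U then 1 else p v with hq
  have hq0 : ∀ v, 0 ≤ q v := by
    intro v
    simp only [hq]
    split_ifs
    · exact zero_le_one
    · exact hp0 v
  have hq1 : ∀ v, q v ≤ 1 := by
    intro v
    simp only [hq]
    split_ifs
    · exact le_rfl
    · exact hp1 v
  set T : ℝ := ∑ u ∈ U, if u ≤ s ∧ s - u ∈ V then q (s - u) else 0 with hT
  have hterm : ∀ u : ℕ, 0 ≤ (if u ≤ s ∧ s - u ∈ V then q (s - u) else 0) := by
    intro u
    split_ifs
    · exact hq0 _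
    · exact le_rfl
  have e1 : ∑ f ∈ Fintype.piFinset L, ∏ v ∈ vert s f \ U, p v =
      ∏ l, ∑ a ∈ L l, q a * q (s - a) := by
    rw [← sum_prod_vert hL q]
    exact sum_congr rfl fun f _ => prod_sdiff_eq _ _ _
  rw [e1, sum_prod_vert hL p]
  set t : Fin K → ℝ := fun l => ∑ a ∈ (L l).filter (fun a => a ∈ U ∨ s - a ∈ U),
    q a * q (s - a) with ht
  have hgle : ∀ l, ∑ a ∈ L l, q a * q (s - a) ≤ (∑ a ∈ L l, p a * p (s - a)) + t l := by
    intro l
    rw [← sum_filter_add_sum_filter_not (L l) (fun a => a ∈ U ∨ s - a ∈ U)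
      (fun a => q a * q (s - a))]
    have h1 : ∑ a ∈ (L l).filter (fun a => ¬ (a ∈ U ∨ s - a ∈ U)), q a * q (s - a) ≤
        ∑ a ∈ L l, p a * p (s - a) := by
      calc ∑ a ∈ (L l).filter (fun a => ¬ (a ∈ U ∨ s - a ∈ U)), q a * q (s - a)
          = ∑ a ∈ (L l).filter (fun a => ¬ (a ∈ U ∨ s - a ∈ U)), p a * p (s - a) := by
            refine sum_congr rfl fun a ha => ?_
            have h2 := (mem_filter.1 ha).2
            push Not at h2
            simp only [hq]
            rw [if_neg h2.1, if_neg h2.2]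
        _ ≤ _ := sum_le_sum_of_subset_of_nonneg (filter_subset _ _) fun a _ _ =>
            mul_nonneg (hp0 _) (hp0 _)
    have h3 : t l = ∑ a ∈ (L l).filter (fun a => a ∈ U ∨ s - a ∈ U), q a * q (s - a) := rfl
    linarith
  have ht0 : ∀ l, 0 ≤ t l := fun l => sum_nonneg fun a _ => mul_nonneg (hq0 _) (hq0 _)
  -- the number of touching elements
  have htcard : ∀ l, t l ≤ 4 * K := by
    intro l
    have h1 : ((L l).filter (fun a => a ∈ U ∨ s - a ∈ U)).card ≤ 4 * K := by
      have h2 : (L l).filter (fun a => a ∈ U ∨ s - a ∈ U) ⊆ U ∪ U.image (fun u => s - u) := by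
        intro a ha
        obtain ⟨h3, h4⟩ := mem_filter.1 ha
        rw [mem_union, mem_image]
        rcases h4 with h4 | h4
        · exact Or.inl h4
        · refine Or.inr ⟨s - a, h4, ?_⟩
          have := (hL.mem l a h3).2.1
          omega
      refine (card_le_card h2).trans ((card_union_le _ _).trans ?_)
      have := card_image_le (s := U) (f := fun u => s - u)
      omega
    calc t l ≤ ∑ a ∈ (L l).filter (fun a => a ∈ U ∨ s - a ∈ U), (1 : ℝ) := by
          refine sum_le_sum fun a _ => ?_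
          calc q a * q (s - a) ≤ 1 * 1 := mul_le_mul (hq1 _) (hq1 _) (hq0 _) zero_le_one
            _ = 1 := one_mul 1
      _ = (((L l).filter (fun a => a ∈ U ∨ s - a ∈ U)).card : ℝ) := by simp
      _ ≤ 4 * K := by exact_mod_cast h1
  have htT : ∀ l, t l ≤ 2 * T := by
    intro l
    have h1 : t l ≤ ∑ a ∈ (L l).filter (fun a => a ∈ U), q a * q (s - a) +
        ∑ a ∈ (L l).filter (fun a => s - a ∈ U), q a * q (s - a) := by
      have h2 : (L l).filter (fun a => a ∈ U ∨ s - a ∈ U) =
          (L l).filter (fun a => a ∈ U) ∪ (L l).filter (fun a => s - a ∈ U) := by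
        rw [filter_or]
      have h3 : t l = ∑ a ∈ (L l).filter (fun a => a ∈ U) ∪ (L l).filter (fun a => s - a ∈ U),
          q a * q (s - a) := by
        simp only [ht]
        rw [h2]
      rw [h3]
      have h4 := sum_union_inter (s₁ := (L l).filter (fun a => a ∈ U))
        (s₂ := (L l).filter (fun a => s - a ∈ U)) (f := fun a => q a * q (s - a))
      have h5 : 0 ≤ ∑ a ∈ (L l).filter (fun a => a ∈ U) ∩ (L l).filter (fun a => s - a ∈ U),
          q a * q (s - a) := sum_nonneg fun a _ => mul_nonneg (hq0 _) (hq0 _)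
      linarith
    have h6 : ∑ a ∈ (L l).filter (fun a => a ∈ U), q a * q (s - a) ≤ T := by
      calc ∑ a ∈ (L l).filter (fun a => a ∈ U), q a * q (s - a)
          ≤ ∑ a ∈ (L l).filter (fun a => a ∈ U),
              (if a ≤ s ∧ s - a ∈ V then q (s - a) else 0) := by
            refine sum_le_sum fun a ha => ?_
            obtain ⟨h7, h8⟩ := mem_filter.1 ha
            obtain ⟨h9, h10, h11⟩ := hL.mem l a h7
            rw [if_pos ⟨by omega, h11⟩]
            calc q a * q (s - a) ≤ 1 * q (s - a) :=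
                  mul_le_mul_of_nonneg_right (hq1 a) (hq0 _)
              _ = q (s - a) := one_mul _
        _ ≤ T := by
            rw [hT]
            refine sum_le_sum_of_subset_of_nonneg ?_ fun u _ _ => hterm u
            intro a ha
            exact (mem_filter.1 ha).2
    have h12 : ∑ a ∈ (L l).filter (fun a => s - a ∈ U), q a * q (s - a) ≤ T := by
      have hinj : Set.InjOn (fun a => s - a) ((L l).filter (fun a => s - a ∈ U)) := by
        intro a ha b hb hab
        have h13 := (hL.mem l a (mem_filter.1 (mem_coe.1 ha)).1).2.1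
        have h14 := (hL.mem l b (mem_filter.1 (mem_coe.1 hb)).1).2.1
        simp only at hab
        omega
      calc ∑ a ∈ (L l).filter (fun a => s - a ∈ U), q a * q (s - a)
          ≤ ∑ a ∈ (L l).filter (fun a => s - a ∈ U),
              (if (s - a) ≤ s ∧ s - (s - a) ∈ V then q (s - (s - a)) else 0) := by
            refine sum_le_sum fun a ha => ?_
            obtain ⟨h7, h8⟩ := mem_filter.1 ha
            obtain ⟨h9, h10, h11⟩ := hL.mem l a h7
            have h15 : s - (s - a) = a := by omega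
            rw [h15, if_pos ⟨by omega, h9⟩]
            calc q a * q (s - a) ≤ q a * 1 :=
                  mul_le_mul_of_nonneg_left (hq1 _) (hq0 _)
              _ = q a := mul_one _
        _ = ∑ u ∈ ((L l).filter (fun a => s - a ∈ U)).image (fun a => s - a),
              (if u ≤ s ∧ s - u ∈ V then q (s - u) else 0) := by
            rw [sum_image (fun a ha b hb h => hinj ha hb h)]
        _ ≤ T := by
            rw [hT]
            refine sum_le_sum_of_subset_of_nonneg ?_ fun u _ _ => hterm u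
            intro u hu
            obtain ⟨a, ha, rfl⟩ := mem_image.1 hu
            exact (mem_filter.1 ha).2
    linarith
  have hx0 : ∀ l, 0 ≤ ∑ a ∈ L l, p a * p (s - a) := fun l =>
    sum_nonneg fun a _ => mul_nonneg (hp0 _) (hp0 _)
  calc ∏ l, ∑ a ∈ L l, q a * q (s - a)
      ≤ ∏ l, ((∑ a ∈ L l, p a * p (s - a)) + t l) := by
        refine prod_le_prod (fun l _ => sum_nonneg fun a _ => mul_nonneg (hq0 _) (hq0 _))
          fun l _ => hgle l
    _ ≤ (∏ l, ∑ a ∈ L l, p a * p (s - a)) +
        (4 * K + 1 : ℝ) ^ (univ : Finset (Fin K)).card * ∑ l, t l := by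
        refine prod_add_le _ _ _ _ ?_ (fun l _ => hx0 l) (fun l _ => hx l) (fun l _ => ht0 l)
          fun l _ => ?_
        · have : (0 : ℝ) ≤ K := Nat.cast_nonneg K
          linarith
        · have h1 := hx l
          have h2 := htcard l
          linarith
    _ ≤ (∏ l, ∑ a ∈ L l, p a * p (s - a)) + (4 * K + 1 : ℝ) ^ K * (K * (2 * T)) := by
        rw [card_univ, Fintype.card_fin]
        have h1 : ∑ l, t l ≤ K * (2 * T) := by
          calc ∑ l, t l ≤ ∑ _l : Fin K, 2 * T := sum_le_sum fun l _ => htT l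
            _ = K * (2 * T) := by
              rw [sum_const, card_univ, Fintype.card_fin, nsmul_eq_mul]
        have h2 : (0 : ℝ) ≤ (4 * K + 1 : ℝ) ^ K := by positivity
        have h3 := mul_le_mul_of_nonneg_left h1 h2
        linarith

variable {Ω : Type*} [MeasurableSpace Ω]

/-- many targets -/
theorem layers_bound {μ : Measure Ω} [IsProbabilityMeasure μ] {E : ℕ → Set Ω} {K : ℕ}
    (hE : KW μ E (2 * (2 * K))) (V S : Finset ℕ) (L : ℕ → Fin K → Finset ℕ)
    (hL : ∀ s ∈ S, Lay V s (L s)) (τ : ℝ) (hτ : 0 < τ)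
    (hlow : ∀ s ∈ S, ∀ l, τ ≤ ∑ a ∈ L s l, μ.real (E a) * μ.real (E (s - a)))
    (hupp : ∀ s ∈ S, ∀ l, ∑ a ∈ L s l, μ.real (E a) * μ.real (E (s - a)) ≤ 1) :
    μ.real {ω | ∀ s ∈ S, rep (rset E ω) s < 2 * K} * (S.card * τ ^ K) ≤
      (4 * K + 1 : ℝ) ^ (K + 3) * ((∑ v ∈ V, μ.real (E v)) + 1) := by
  classical
  set p : ℕ → ℝ := fun n => μ.real (E n) with hp
  have hp0 : ∀ n, 0 ≤ p n := fun n => measureReal_nonneg
  have hp1 : ∀ n, p n ≤ 1 := fun n => measureReal_le_one
  set M : ℝ := ∑ v ∈ V, p v with hM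
  have hM0 : 0 ≤ M := sum_nonneg fun v _ => hp0 v
  set J : Finset (Σ _ : ℕ, Fin K → ℕ) := S.sigma fun s => Fintype.piFinset (L s) with hJ
  set D : ℝ := (4 * K + 1 : ℝ) ^ (K + 3) * (M + 1) with hD
  have hK0 : (0 : ℝ) ≤ K := Nat.cast_nonneg K
  have hD0 : 0 ≤ D := by positivity
  have hmain := chebyshev hE J (fun j => vert j.1 j.2) (fun j _ => vert_card _ _) D ?_ 0 ?_
  · set m : ℝ := ∑ i ∈ J, ∏ v ∈ vert i.1 i.2, μ.real (E v) with hm
    have hmlow : (S.card : ℝ) * τ ^ K ≤ m := by
      calc (S.card : ℝ) * τ ^ K = ∑ _s ∈ S, τ ^ K := by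
            rw [sum_const, nsmul_eq_mul]
        _ ≤ ∑ s ∈ S, ∏ l, ∑ a ∈ L s l, p a * p (s - a) := by
            refine sum_le_sum fun s hs => ?_
            calc τ ^ K = ∏ _l : Fin K, τ := by simp
              _ ≤ _ := prod_le_prod (fun _ _ => hτ.le) fun l _ => hlow s hs l
        _ = ∑ s ∈ S, ∑ f ∈ Fintype.piFinset (L s), ∏ v ∈ vert s f, p v :=
            sum_congr rfl fun s hs => (sum_prod_vert (hL s hs) p).symm
        _ = m := by
            rw [hm, hJ, sum_sigma]
    have hm0 : 0 ≤ m := le_trans (by positivity) hmlow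
    have hsub : μ.real {ω | ∀ s ∈ S, rep (rset E ω) s < 2 * K} ≤
        μ.real {ω | (cnt E J (fun j => vert j.1 j.2) ω : ℝ) ≤ 0} := by
      refine measureReal_mono ?_
      intro ω hω
      have hω' : ∀ s ∈ S, rep (rset E ω) s < 2 * K := hω
      show (cnt E J (fun j => vert j.1 j.2) ω : ℝ) ≤ 0
      have : cnt E J (fun j => vert j.1 j.2) ω = 0 := by
        unfold cnt
        rw [card_eq_zero, filter_eq_empty_iff]
        rintro ⟨s, f⟩ hj hv
        rw [hJ, mem_sigma] at hj
        obtain ⟨hs, hf⟩ := hj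
        simp only at hs hf hv
        have hf' : ∀ l, f l ∈ L s l := Fintype.mem_piFinset.1 hf
        have hinj : Function.Injective f := by
          intro l l' h
          by_contra hne
          have h1 := hf' l
          rw [h] at h1
          exact disjoint_left.1 ((hL s hs).disj l l' hne) h1 (hf' l')
        have h2 := two_mul_le_rep (rset E ω) s (univ.image f) (by
          intro a ha
          obtain ⟨l, _, rfl⟩ := mem_image.1 ha
          refine ⟨hv _ ?_, hv _ ?_, ((hL s hs).mem l _ (hf' l)).2.1⟩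
          · exact mem_union_left _ (mem_image_of_mem _ (mem_univ l))
          · exact mem_union_right _ (mem_image.2 ⟨l, mem_univ l, rfl⟩))
        rw [card_image_of_injective _ hinj, card_univ, Fintype.card_fin] at h2
        have h3 := hω' s hs
        omega
      rw [this]
      simp
    rw [sub_zero] at hmain
    set P0 : ℝ := μ.real {ω | (cnt E J (fun j => vert j.1 j.2) ω : ℝ) ≤ 0} with hP0
    have hP00 : 0 ≤ P0 := measureReal_nonneg
    have h4 : P0 * m ≤ D := by
      rcases hm0.lt_or_eq with h | h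
      · have h5 : P0 * m * m ≤ D * m := by nlinarith
        exact le_of_mul_le_mul_right h5 h
      · rw [← h]
        simpa using hD0
    calc μ.real {ω | ∀ s ∈ S, rep (rset E ω) s < 2 * K} * (S.card * τ ^ K)
        ≤ P0 * m := mul_le_mul hsub hmlow (by positivity) hP00
      _ ≤ D := h4
  · rintro ⟨s₀, f₀⟩ _
    set U : Finset ℕ := vert s₀ f₀ with hU
    have hUc : U.card ≤ 2 * K := vert_card _ _
    rw [hJ, sum_sigma, sum_sigma]
    have h1 : ∀ s ∈ S, ∑ f ∈ Fintype.piFinset (L s), ∏ v ∈ vert s f \ U, p v ≤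
        (∑ f ∈ Fintype.piFinset (L s), ∏ v ∈ vert s f, p v) + (4 * K + 1 : ℝ) ^ K * (K * (2 *
          ∑ u ∈ U, if u ≤ s ∧ s - u ∈ V then (if s - u ∈ U then 1 else p (s - u)) else 0)) :=
      fun s hs => one_target (hL s hs) p hp0 hp1 (hupp s hs) U hUc
    refine (sum_le_sum h1).trans ?_
    rw [sum_add_distrib]
    refine add_le_add le_rfl ?_
    rw [← mul_sum, ← mul_sum, ← mul_sum, sum_comm]
    have h2 : ∀ u ∈ U, ∑ s ∈ S, (if u ≤ s ∧ s - u ∈ V then
        (if s - u ∈ U then (1 : ℝ) else p (s - u)) else 0) ≤ M + 2 * K := by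
      intro u _
      have h3 : ∑ s ∈ S, (if u ≤ s ∧ s - u ∈ V then
          (if s - u ∈ U then (1 : ℝ) else p (s - u)) else 0) =
          ∑ s ∈ S.filter (fun s => u ≤ s ∧ s - u ∈ V),
            (if s - u ∈ U then (1 : ℝ) else p (s - u)) := by
        rw [sum_filter]
      have hinj : Set.InjOn (fun s => s - u) (S.filter (fun s => u ≤ s ∧ s - u ∈ V)) := by
        intro a ha b hb hab
        have h4 := (mem_filter.1 (mem_coe.1 ha)).2.1
        have h5 := (mem_filter.1 (mem_coe.1 hb)).2.1
        simp only at hab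
        omega
      have hnn : ∀ v : ℕ, 0 ≤ (if v ∈ U then (1 : ℝ) else p v) := by
        intro v
        split_ifs
        · exact zero_le_one
        · exact hp0 v
      rw [h3]
      calc ∑ s ∈ S.filter (fun s => u ≤ s ∧ s - u ∈ V),
            (if s - u ∈ U then (1 : ℝ) else p (s - u))
          = ∑ v ∈ (S.filter (fun s => u ≤ s ∧ s - u ∈ V)).image (fun s => s - u),
              (if v ∈ U then (1 : ℝ) else p v) := by
            rw [sum_image (fun a ha b hb h => hinj ha hb h)]
        _ ≤ ∑ v ∈ V, (if v ∈ U then (1 : ℝ) else p v) := by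
            refine sum_le_sum_of_subset_of_nonneg ?_ fun v _ _ => hnn v
            intro v hv
            obtain ⟨s, hs, rfl⟩ := mem_image.1 hv
            exact (mem_filter.1 hs).2.2
        _ ≤ ∑ v ∈ V, (p v + if v ∈ U then (1 : ℝ) else 0) := by
            refine sum_le_sum fun v _ => ?_
            split_ifs
            · have := hp0 v
              linarith
            · linarith
        _ = M + ((V.filter fun v => v ∈ U).card : ℝ) := by
            rw [sum_add_distrib, ← sum_filter, sum_const, nsmul_eq_mul, mul_one]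
        _ ≤ M + 2 * K := by
            have h6 : (V.filter fun v => v ∈ U).card ≤ 2 * K := by
              refine le_trans (card_le_card ?_) hUc
              intro v hv
              exact (mem_filter.1 hv).2
            have h7 : ((V.filter fun v => v ∈ U).card : ℝ) ≤ 2 * K := by exact_mod_cast h6
            linarith
    have h8 : ∑ u ∈ U, ∑ s ∈ S, (if u ≤ s ∧ s - u ∈ V then
        (if s - u ∈ U then (1 : ℝ) else p (s - u)) else 0) ≤ (2 * K) * (M + 2 * K) := by
      calc _ ≤ ∑ _u ∈ U, (M + 2 * K) := sum_le_sum h2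
        _ = U.card * (M + 2 * K) := by rw [sum_const, nsmul_eq_mul]
        _ ≤ (2 * K) * (M + 2 * K) := by
            have h9 : (U.card : ℝ) ≤ 2 * K := by exact_mod_cast hUc
            exact mul_le_mul_of_nonneg_right h9 (by linarith)
    have hb : (0 : ℝ) ≤ (4 * K + 1 : ℝ) ^ K := by positivity
    calc (4 * K + 1 : ℝ) ^ K * (K * (2 * ∑ u ∈ U, ∑ s ∈ S, (if u ≤ s ∧ s - u ∈ V then
          (if s - u ∈ U then (1 : ℝ) else p (s - u)) else 0)))
        ≤ (4 * K + 1 : ℝ) ^ K * (K * (2 * ((2 * K) * (M + 2 * K)))) := by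
          gcongr
      _ ≤ D := by
          have h9 : D = (4 * K + 1 : ℝ) ^ K * ((4 * K + 1 : ℝ) ^ 3 * (M + 1)) := by
            rw [hD, pow_add]
            ring
          rw [h9]
          refine mul_le_mul_of_nonneg_left ?_ hb
          have h10 : (K : ℝ) * (2 * (2 * K * (M + 2 * K))) = 4 * K ^ 2 * (M + 2 * K) := by ring
          rw [h10]
          have h11 : M + 2 * K ≤ (2 * K + 1) * (M + 1) := by nlinarith
          calc 4 * (K : ℝ) ^ 2 * (M + 2 * K) ≤ 4 * (K : ℝ) ^ 2 * ((2 * K + 1) * (M + 1)) := by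
                gcongr
            _ = (4 * (K : ℝ) ^ 2 * (2 * K + 1)) * (M + 1) := by ring
            _ ≤ (4 * K + 1 : ℝ) ^ 3 * (M + 1) := by
                refine mul_le_mul_of_nonneg_right ?_ (by linarith)
                have h12 : (0 : ℝ) ≤ (K : ℝ) ^ 3 := by positivity
                have h13 : (0 : ℝ) ≤ (K : ℝ) ^ 2 := by positivity
                nlinarith
  · exact sum_nonneg fun i _ => prod_nonneg fun v _ => measureReal_nonneg

end Pool.Agent.Y940.RS
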