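import Pool.Agent.Y940.RS.Core
/-!
# Random sets with independent membership: unboundedness and derandomization
-/

set_option autoImplicit false

open Finset Filter MeasureTheory ProbabilityTheory

namespace Pool.Agent.Y940.RS

variable {Ω : Type*} [MeasurableSpace Ω]

/-- There are infinitely many scales `N` with a `G`, `1 ≤ G ≤ N ^ ε`, such that the expected
number of elements up to `N` is at least `√N / G` although the membership probabilities
between `N ^ (1/4)` and `N` are at most `ε / G`. -/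
def Rich (p : ℕ → ℝ) : Prop :=
  ∀ ε : ℝ, 0 < ε → ∃ᶠ N : ℕ in atTop, ∃ G : ℝ, 1 ≤ G ∧ G ≤ (N : ℝ) ^ ε ∧
    Real.sqrt N / G ≤ ∑ n ∈ Icc 1 N, p n ∧ ∀ n : ℕ, n ≤ N → N ≤ n ^ 4 → p n ≤ ε / G

theorem rich_null {μ : Measure Ω} [IsProbabilityMeasure μ] {E : ℕ → Set Ω} {K : ℕ} (hK : 1 ≤ K)
    (hE : KW μ E (2 * (2 * K))) (hr : Rich fun n => μ.real (E n)) :
    μ {ω | ∀ s, rep (rset E ω) s < 2 * K} = 0 := by
  have h1 : μ.real {ω | ∀ s, rep (rset E ω) s < 2 * K} ≤ 0 := by
    refine le_of_forall_pos_le_add fun θ hθ => ?_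
    obtain ⟨ε, hε, N₀, hN₀⟩ := core K hK θ hθ
    obtain ⟨N, ⟨G, hG1, hG2, hG3, hG4⟩, hN⟩ :=
      ((hr ε hε).and_eventually (eventually_ge_atTop N₀)).exists
    rw [zero_add]
    exact hN₀ N hN G hG1 hG2 Ω μ E hE hG3 hG4
  have h2 : μ.real {ω | ∀ s, rep (rset E ω) s < 2 * K} = 0 := le_antisymm h1 measureReal_nonneg
  exact (measureReal_eq_zero_iff).1 h2

theorem rich_ae {μ : Measure Ω} [IsProbabilityMeasure μ] {E : ℕ → Set Ω}
    (hE : ∀ k, KW μ E k) (hr : Rich fun n => μ.real (E n)) :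
    ∀ᵐ ω ∂μ, ∀ R : ℕ, ∃ s, R ≤ rep (rset E ω) s := by
  have h1 : ∀ R : ℕ, ∀ᵐ ω ∂μ, ∃ s, 2 * (R + 1) ≤ rep (rset E ω) s := by
    intro R
    have h2 := rich_null (K := R + 1) (by omega) (hE _) hr
    rw [ae_iff]
    convert h2 using 2
    ext ω
    simp only [Set.mem_ofPred_eq, not_exists, not_le]
  rw [← ae_all_iff] at h1
  filter_upwards [h1] with ω hω R
  obtain ⟨s, hs⟩ := hω R
  exact ⟨s, by omega⟩

/-- the constant threshold -/
theorem rich_of_const {p : ℕ → ℝ} (h0 : Tendsto p atTop (nhds 0)) {c : ℝ}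
    (hc : 0 < c) (hsum : ∃ᶠ N : ℕ in atTop, c * Real.sqrt N ≤ ∑ n ∈ Icc 1 N, p n) :
    Rich p := by
  intro ε hε
  set G : ℝ := max (1 / c) 1 with hG
  have hG0 : 0 < G := lt_of_lt_of_le one_pos (le_max_right _ _)
  have hlim : Tendsto (fun N : ℕ => (N : ℝ) ^ ε) atTop atTop :=
    (tendsto_rpow_atTop hε).comp tendsto_natCast_atTop_atTop
  have h1 := hlim.eventually_ge_atTop G
  have h2 : ∀ᶠ n : ℕ in atTop, p n ≤ ε / G :=
    (h0.eventually (Iio_mem_nhds (show (0 : ℝ) < ε / G by positivity))).mono fun _ h => le_of_lt h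
  obtain ⟨n₀, hn₀⟩ := eventually_atTop.1 h2
  refine ((hsum.and_eventually h1).and_eventually (eventually_ge_atTop ((n₀ + 1) ^ 4))).mono ?_
  rintro N ⟨⟨h3, h4⟩, h5⟩
  refine ⟨G, le_max_right _ _, h4, ?_, ?_⟩
  · refine le_trans ?_ h3
    rw [div_le_iff₀ hG0]
    have h6 : 1 / c ≤ G := le_max_left _ _
    have h7 : 1 ≤ c * G := by
      rw [div_le_iff₀ hc] at h6
      linarith
    have h8 := Real.sqrt_nonneg (N : ℝ)
    nlinarith
  · intro n _ hn2
    refine hn₀ n ?_
    by_contra hlt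
    push Not at hlt
    have h9 : n ^ 4 < (n₀ + 1) ^ 4 := Nat.pow_lt_pow_left (by omega) (by norm_num)
    omega

/-- The means of the numbers of pairs are bounded if the representation function is bounded with
positive probability. -/
theorem mean_bound {μ : Measure Ω} [IsProbabilityMeasure μ] {E : ℕ → Set Ω} {K : ℕ}
    (hK : 1 ≤ K) (hE : KW μ E (2 * (2 * K)))
    (hpos : 0 < μ.real {ω | ∀ s, rep (rset E ω) s < 2 * K}) :
    ∃ H : ℝ, 0 < H ∧ ∀ (V : Finset ℕ) (s : ℕ),
      ∑ a ∈ pairs V s, μ.real (E a) * μ.real (E (s - a)) ≤ H := by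
  set P := μ.real {ω | ∀ s, rep (rset E ω) s < 2 * K} with hP
  have hKr : (1 : ℝ) ≤ K := by exact_mod_cast hK
  refine ⟨max (2 * K) (4 / P), lt_of_lt_of_le (by linarith) (le_max_left _ _), fun V s => ?_⟩
  by_contra hlt
  push Not at hlt
  obtain ⟨h1, h2⟩ := max_lt_iff.1 hlt
  have h3 := large_mean (hE.mono (by omega)) V s K h1.le
  have h4 : P ≤ μ.real {ω | rep (rset E ω) s < 2 * K} := by
    refine measureReal_mono ?_
    intro ω hω
    exact hω s
  rw [div_lt_iff₀ hpos] at h2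
  have h5 := mul_le_mul_of_nonneg_right h4 ((by positivity : (0:ℝ) ≤ 4 / P).trans
    ((le_max_right _ _).trans hlt.le))
  nlinarith

/-- level sets of the membership probabilities have a bounded representation function -/
theorem level_bounded {p : ℕ → ℝ} {H : ℝ} (hp : ∀ n, 0 ≤ p n)
    (hH : ∀ (V : Finset ℕ) (s : ℕ), ∑ a ∈ pairs V s, p a * p (s - a) ≤ H)
    {ε : ℝ} (hε : 0 < ε) : ∃ R : ℕ, ∀ s, rep {n | ε ≤ p n} s ≤ R := by
  classical
  refine ⟨2 * ⌈H / ε ^ 2⌉₊ + 1, fun s => ?_⟩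
  set V : Finset ℕ := (range (s + 1)).filter fun n => ε ≤ p n with hV
  have h1 : ((pairs V s).card : ℝ) * ε ^ 2 ≤ H := by
    refine le_trans ?_ (hH V s)
    rw [← nsmul_eq_mul, ← sum_const]
    refine sum_le_sum fun a ha => ?_
    obtain ⟨h2, _, h3⟩ := mem_pairs.1 ha
    have h4 := (mem_filter.1 h2).2
    have h5 := (mem_filter.1 h3).2
    rw [sq]
    exact mul_le_mul h4 h5 hε.le (hp _)
  have h6 : (pairs V s).card ≤ ⌈H / ε ^ 2⌉₊ := by
    have : ((pairs V s).card : ℝ) ≤ H / ε ^ 2 := by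
      rw [le_div_iff₀ (by positivity)]
      exact h1
    exact_mod_cast this.trans (Nat.le_ceil _)
  have h7 : rep {n | ε ≤ p n} s ≤ 2 * (pairs V s).card + 1 := by
    set P : Finset (ℕ × ℕ) := ((pairs V s).image (fun a => (a, s - a)) ∪
      (pairs V s).image (fun a => (s - a, a))) ∪ {(s / 2, s - s / 2)} with hP
    have h8 : P.card ≤ 2 * (pairs V s).card + 1 := by
      rw [hP]
      refine (card_union_le _ _).trans ?_
      rw [card_singleton]
      have h9 := card_union_le ((pairs V s).image (fun a => (a, s - a)))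
        ((pairs V s).image (fun a => (s - a, a)))
      have h10 := card_image_le (s := pairs V s) (f := fun a => (a, s - a))
      have h11 := card_image_le (s := pairs V s) (f := fun a => (s - a, a))
      omega
    refine le_trans ?_ h8
    rw [← Set.ncard_coe_finset P]
    refine Set.ncard_le_ncard ?_ (Finset.finite_toSet P)
    rintro ⟨a, b⟩ ⟨h9, h10, h11⟩
    simp only [Set.mem_ofPred_eq] at h9 h10 h11
    rw [mem_coe, hP, mem_union, mem_union, mem_image, mem_image, mem_singleton]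
    rcases lt_trichotomy (2 * a) s with h | h | h
    · left; left
      refine ⟨a, mem_pairs.2 ⟨?_, h, ?_⟩, ?_⟩
      · rw [hV, mem_filter, mem_range]
        exact ⟨by omega, h9⟩
      · have : s - a = b := by omega
        rw [this, hV, mem_filter, mem_range]
        exact ⟨by omega, h10⟩
      · rw [Prod.mk.injEq]
        exact ⟨rfl, by omega⟩
    · right
      rw [Prod.mk.injEq]
      exact ⟨by omega, by omega⟩
    · left; right
      refine ⟨b, mem_pairs.2 ⟨?_, by omega, ?_⟩, ?_⟩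
      · rw [hV, mem_filter, mem_range]
        exact ⟨by omega, h10⟩
      · have : s - b = a := by omega
        rw [this, hV, mem_filter, mem_range]
        exact ⟨by omega, h9⟩
      · rw [Prod.mk.injEq]
        exact ⟨by omega, rfl⟩
  omega

/-- thinning: keep only the numbers of small probability -/
noncomputable def thin (μ : Measure Ω) (E : ℕ → Set Ω) (ε : ℝ) : ℕ → Set Ω :=
  open Classical in fun n => if μ.real (E n) < ε then E n else ∅

theorem thin_KW {μ : Measure Ω} [IsProbabilityMeasure μ] {E : ℕ → Set Ω} {k : ℕ}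
    (h : KW μ E k) (ε : ℝ) : KW μ (thin μ E ε) k := by
  classical
  refine ⟨fun n => ?_, fun U hU => ?_⟩
  · unfold thin
    split_ifs
    · exact h.1 n
    · exact MeasurableSet.empty
  · by_cases hall : ∀ n ∈ U, μ.real (E n) < ε
    · have h1 : ⋂ n ∈ U, thin μ E ε n = ⋂ n ∈ U, E n := by
        refine Set.iInter₂_congr fun n hn => ?_
        unfold thin
        rw [if_pos (hall n hn)]
      rw [h1, h.2 U hU]
      refine prod_congr rfl fun n hn => ?_
      unfold thin
      rw [if_pos (hall n hn)]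
    · push Not at hall
      obtain ⟨n, hn, hn2⟩ := hall
      have h2 : thin μ E ε n = ∅ := by
        unfold thin
        rw [if_neg (not_lt.2 hn2)]
      rw [prod_eq_zero hn (by rw [h2]; simp)]
      have h3 : ⋂ n ∈ U, thin μ E ε n = ∅ := by
        rw [Set.eq_empty_iff_forall_notMem]
        intro ω hω
        rw [Set.mem_iInter₂] at hω
        have := hω n hn
        rw [h2] at this
        exact this
      rw [h3]
      simp

omit [MeasurableSpace Ω] in
theorem rep_mono_left {E F : ℕ → Set Ω} (h : ∀ n, E n ⊆ F n) (ω : Ω) (s : ℕ) :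
    rep (rset E ω) s ≤ rep (rset F ω) s :=
  rep_mono (fun n hn => h n hn) s

/-- **Derandomization, large level sets.** -/
theorem level_thick {μ : Measure Ω} [IsProbabilityMeasure μ] {E : ℕ → Set Ω} {K : ℕ}
    (hK : 1 ≤ K) (hE : KW μ E (2 * (2 * K)))
    (hpos : 0 < μ.real {ω | ∀ s, rep (rset E ω) s < 2 * K}) {c : ℝ} (hc : 0 < c) :
    ∃ ε₀ : ℝ, 0 < ε₀ ∧ ∀ ε : ℝ, 0 < ε → ε ≤ ε₀ → ∀ᶠ N : ℕ in atTop,
      c * Real.sqrt N ≤ ∑ n ∈ Icc 1 N, μ.real (E n) →
      c / 2 * Real.sqrt N ≤ ({n | ε ≤ μ.real (E n)} ∩ Set.Icc 1 N).ncard := by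
  classical
  set P := μ.real {ω | ∀ s, rep (rset E ω) s < 2 * K} with hP
  obtain ⟨ε₁, hε₁, N₀, hN₀⟩ := core K hK (P / 2) (by positivity)
  set G : ℝ := max (2 / c) 1 with hG
  have hG0 : 0 < G := lt_of_lt_of_le one_pos (le_max_right _ _)
  refine ⟨ε₁ / G, by positivity, fun ε hε hεle => ?_⟩
  have hlim : Tendsto (fun N : ℕ => (N : ℝ) ^ ε₁) atTop atTop :=
    (tendsto_rpow_atTop hε₁).comp tendsto_natCast_atTop_atTop
  filter_upwards [hlim.eventually_ge_atTop G, eventually_ge_atTop N₀] with N hN1 hN2 hsum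
  have hs0 := Real.sqrt_nonneg (N : ℝ)
  have hkey : ∑ n ∈ Icc 1 N, μ.real (thin μ E ε n) < Real.sqrt N / G := by
    by_contra hge
    push Not at hge
    have h1 := hN₀ N hN2 G (le_max_right _ _) hN1 Ω μ (thin μ E ε) (thin_KW hE ε) hge
      (fun n _ _ => by
        refine le_trans ?_ hεle
        unfold thin
        split_ifs with h
        · exact h.le
        · simp [hε.le])
    have h2 : P ≤ μ.real {ω | ∀ s, rep (rset (thin μ E ε) ω) s < 2 * K} := by
      refine measureReal_mono ?_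
      intro ω hω s
      refine lt_of_le_of_lt (rep_mono_left (fun n => ?_) ω s) (hω s)
      unfold thin
      split_ifs
      · exact subset_rfl
      · exact Set.empty_subset _
    linarith
  have hG2 : Real.sqrt N / G ≤ c / 2 * Real.sqrt N := by
    rw [div_le_iff₀ hG0]
    have h3 : 2 / c ≤ G := le_max_left _ _
    rw [div_le_iff₀ hc] at h3
    nlinarith
  have hsplit : ∑ n ∈ Icc 1 N, μ.real (E n) ≤ ∑ n ∈ Icc 1 N, μ.real (thin μ E ε n) +
      (((Icc 1 N).filter fun n => ε ≤ μ.real (E n)).card : ℝ) := by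
    rw [card_filter]
    push_cast
    rw [← sum_add_distrib]
    refine sum_le_sum fun n _ => ?_
    unfold thin
    by_cases h : μ.real (E n) < ε
    · rw [if_pos h, if_neg (not_le.2 h)]
      simp
    · rw [if_neg h, if_pos (not_lt.1 h)]
      have : μ.real (E n) ≤ 1 := measureReal_le_one
      have h0 : μ.real (∅ : Set Ω) = 0 := by simp
      rw [h0]
      linarith
  have hcard : (({n | ε ≤ μ.real (E n)} ∩ Set.Icc 1 N).ncard : ℝ) =
      (((Icc 1 N).filter fun n => ε ≤ μ.real (E n)).card : ℝ) := by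
    rw [← Set.ncard_coe_finset]
    congr 2
    ext n
    simp only [Set.mem_inter_iff, Set.mem_ofPred_eq, Set.mem_Icc, coe_filter, mem_Icc]
    tauto
  rw [hcard]
  linarith

end Pool.Agent.Y940.RS
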